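import Pool.Agent.Helper5.RO.Goals
import Pool.Agent.Helper29.BL.PEX

/-!
# Project RO (MP_a41896_nt), packet REL: the relations `m z_0 = ± m' z_1` are proper closed conditions
-/

namespace Pool.Agent.Helper37.RO

open WeierstrassCurve MvPolynomial
open Pool.Agent.Helper29.BL Pool.Agent.Helper5.RO

noncomputable section

/-- If `m ≥ 1` then the denominator of the multiplication by `m` is not zero. -/
theorem B_ne_zero {K : Type} [Field K] (W : Affine K) [W.IsElliptic] {m : ℕ}
    {A B : Polynomial K} (h : MulPol W m A B) (hm : m ≠ 0) : B ≠ 0 := by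
  classical
  rintro rfl
  let F := AlgebraicClosure K
  let φ : K →+* F := algebraMap K F
  have hdeg : (A.map φ).degree ≠ 0 := by
    rw [Polynomial.degree_map, Polynomial.degree_eq_natDegree h.monic.ne_zero, h.degA]
    have : m ^ 2 ≠ 0 := pow_ne_zero 2 hm
    exact_mod_cast this
  obtain ⟨x, hx⟩ := IsAlgClosed.exists_root (A.map φ) hdeg
  obtain ⟨P, hP, hPx⟩ := pex F (W.map φ) x
  obtain ⟨σ, hσ, h0, h1⟩ := h.rep F φ (W.map φ) rfl P hP
  rw [hPx] at h0 h1
  have hx' : A.eval₂ φ x = 0 := by
    rw [← Polynomial.eval_map]; exact hx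
  rw [hx'] at h0
  rw [Polynomial.eval₂_zero] at h1
  refine Affine.Point.xRep_ne_zero (m • P) ?_
  funext i
  fin_cases i
  · exact (mul_eq_zero.mp h0.symm).resolve_left hσ
  · exact (mul_eq_zero.mp h1.symm).resolve_left hσ

theorem B_eq_zero {K : Type} [Field K] (W : Affine K)
    {A B : Polynomial K} (h : MulPol W 0 A B) : A = 1 ∧ B = 0 := by
  have h1 := h.degA
  have h2 := h.degB
  refine ⟨h.monic.natDegree_eq_zero.mp (by rw [h1]; rfl), ?_⟩
  by_contra hB
  rw [Polynomial.degree_eq_natDegree hB] at h2
  have h3 : B.natDegree < 0 ^ 2 := by exact_mod_cast h2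
  simp at h3

theorem gREL (hMUL : G_MUL) : G_REL := by
  intro K _ _ W _ n i₀ i₁ hi m m' hmm
  obtain ⟨A, B, h⟩ := hMUL K W m
  obtain ⟨A', B', h'⟩ := hMUL K W m'
  have key : ∀ (F : Type) [CommRing F] (φ : K →+* F) (f : Fin n → F),
      eval₂ φ f (Polynomial.aeval (X i₀) A * Polynomial.aeval (X i₁) B' -
        Polynomial.aeval (X i₁) A' * Polynomial.aeval (X i₀) B : MvPolynomial (Fin n) K) =
      A.eval₂ φ (f i₀) * B'.eval₂ φ (f i₁) - A'.eval₂ φ (f i₁) * B.eval₂ φ (f i₀) := by
    intro F _ φ f
    have h1 : ∀ (i : Fin n) (G : Polynomial K),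
        eval₂ φ f (Polynomial.aeval (X i) G : MvPolynomial (Fin n) K) = G.eval₂ φ (f i) := by
      intro i G
      have := Polynomial.hom_eval₂ G (algebraMap K (MvPolynomial (Fin n) K)) (eval₂Hom φ f) (X i)
      rw [← Polynomial.aeval_def, coe_eval₂Hom, eval₂_X] at this
      rw [this]
      congr 1
      ext a
      simp
    rw [eval₂_sub, eval₂_mul, eval₂_mul, h1, h1, h1, h1]
  refine ⟨Polynomial.aeval (X i₀) A * Polynomial.aeval (X i₁) B' -
        Polynomial.aeval (X i₁) A' * Polynomial.aeval (X i₀) B, ?_, ?_⟩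
  · intro hZ
    let F := AlgebraicClosure K
    let φ : K →+* F := algebraMap K F
    have : Infinite F := IsAlgClosed.instInfinite
    have e1 : ∀ t s : F, A.eval₂ φ t * B'.eval₂ φ s - A'.eval₂ φ s * B.eval₂ φ t = 0 := by
      intro t s
      have := key F φ (fun i => if i = i₀ then t else s)
      rw [hZ, eval₂_zero] at this
      simpa [hi.symm] using this.symm
    by_cases hm' : m' = 0
    · subst hm'
      obtain ⟨hA', hB'⟩ := B_eq_zero W h'
      have hm : m ≠ 0 := by tauto
      apply B_ne_zero W h hm
      have h3 : B.map φ = 0 := by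
        apply Polynomial.funext
        intro t
        have := e1 t 0
        rw [hA', hB', Polynomial.eval₂_zero, mul_zero, Polynomial.eval₂_one, one_mul, zero_sub,
          neg_eq_zero] at this
        rw [Polynomial.eval_map, this, Polynomial.eval_zero]
      exact (Polynomial.map_eq_zero φ).mp h3
    · apply B_ne_zero W h' hm'
      have h3 : B'.map φ = 0 := by
        apply Polynomial.funext
        intro s
        have h4 : Polynomial.C (B'.eval₂ φ s) * A.map φ - Polynomial.C (A'.eval₂ φ s) * B.map φ = 0 := by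
          apply Polynomial.funext
          intro t
          have := e1 t s
          rw [Polynomial.eval_sub, Polynomial.eval_mul, Polynomial.eval_mul, Polynomial.eval_C,
            Polynomial.eval_C, Polynomial.eval_map, Polynomial.eval_map, Polynomial.eval_zero]
          linear_combination this
        have h5 := congrArg (fun G => Polynomial.coeff G (m ^ 2)) h4
        simp only [Polynomial.coeff_sub, Polynomial.coeff_C_mul, Polynomial.coeff_map,
          Polynomial.coeff_zero] at h5
        have h6 : A.coeff (m ^ 2) = 1 := by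
          rw [← h.degA]; exact h.monic
        have h7 : B.coeff (m ^ 2) = 0 := Polynomial.coeff_eq_zero_of_degree_lt h.degB
        rw [h6, h7, map_one, map_zero, mul_one, mul_zero, sub_zero] at h5
        rw [Polynomial.eval_map, h5, Polynomial.eval_zero]
      exact (Polynomial.map_eq_zero φ).mp h3
  · intro z hz₀ hz₁ hrel
    have hx : (m • z i₀).xRep = (m' • z i₁).xRep := by
      rcases hrel with h1 | h1
      · rw [h1]
      · rw [h1, Affine.Point.xRep_neg]
    have hid : W = W.map (RingHom.id K) := (WeierstrassCurve.map_id W).symm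
    obtain ⟨σ, -, a0, a1⟩ := h.rep K (RingHom.id K) W hid (z i₀) hz₀
    obtain ⟨τ, -, b0, b1⟩ := h'.rep K (RingHom.id K) W hid (z i₁) hz₁
    have := key K (RingHom.id K) (fun i => xc (z i))
    rw [show eval (fun i => xc (z i)) = eval₂Hom (RingHom.id K) (fun i => xc (z i)) from rfl,
      coe_eval₂Hom, this, a0, a1, b0, b1, hx]
    ring

end

end Pool.Agent.Helper37.RO
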